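import Mathlib

set_option autoImplicit false

/-!
# Proximal points of an everywhere differentiable function

For `g` differentiable on a ball and `κ` large, every `v` in the concentric ball of half the radius
has a proximal point `w`, a minimiser of `g w + κ/2 |v - w|²`; there `∇ g w = κ (v - w)`.  The set of
all these pairs `(v, w)` is compact and monotone.
-/

open Set Metric Filter Topology Module
open scoped NNReal ENNReal

namespace Pool.Agent.W769.Cons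

variable {E : Type*} [NormedAddCommGroup E] [InnerProductSpace ℝ E] [FiniteDimensional ℝ E]

/-- The pairs `(v, w)`, `v` in the half ball, `w` a minimiser of `g w + κ/2 |v - w|²` in the ball. -/
def prox (g : E → ℝ) (κ : ℝ) (x₀ : E) (ρ : ℝ) : Set (E × E) :=
  {p | p ∈ closedBall x₀ (ρ / 2) ×ˢ closedBall x₀ ρ ∧ ∀ w ∈ closedBall x₀ ρ,
    g p.2 + κ / 2 * ‖p.1 - p.2‖ ^ 2 ≤ g w + κ / 2 * ‖p.1 - w‖ ^ 2}

theorem isCompact_prox {g : E → ℝ} {κ : ℝ} {x₀ : E} {ρ : ℝ}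
    (hg : ContinuousOn g (closedBall x₀ ρ)) : IsCompact (prox g κ x₀ ρ) := by
  have hcomp : IsCompact (closedBall x₀ (ρ / 2) ×ˢ closedBall x₀ ρ) :=
    (isCompact_closedBall _ _).prod (isCompact_closedBall _ _)
  by_cases hne : (closedBall x₀ ρ).Nonempty
  · have heq : prox g κ x₀ ρ = ⋂ w ∈ closedBall x₀ ρ,
        {p | p ∈ closedBall x₀ (ρ / 2) ×ˢ closedBall x₀ ρ ∧
          g p.2 + κ / 2 * ‖p.1 - p.2‖ ^ 2 ≤ g w + κ / 2 * ‖p.1 - w‖ ^ 2} := by
      ext p
      simp only [prox, mem_ofPred_eq, mem_iInter]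
      constructor
      · rintro ⟨h1, h2⟩ w hw
        exact ⟨h1, h2 w hw⟩
      · intro h
        obtain ⟨w, hw⟩ := hne
        exact ⟨(h w hw).1, fun w' hw' => (h w' hw').2⟩
    refine hcomp.of_isClosed_subset ?_ (fun p hp => hp.1)
    rw [heq]
    refine isClosed_biInter fun w _ => ?_
    have h1 : ContinuousOn (fun p : E × E => g p.2 + κ / 2 * ‖p.1 - p.2‖ ^ 2)
        (closedBall x₀ (ρ / 2) ×ˢ closedBall x₀ ρ) := by
      refine ContinuousOn.add (hg.comp continuousOn_snd fun p hp => hp.2) ?_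
      exact Continuous.continuousOn (by fun_prop)
    have h2 : ContinuousOn (fun p : E × E => g w + κ / 2 * ‖p.1 - w‖ ^ 2)
        (closedBall x₀ (ρ / 2) ×ˢ closedBall x₀ ρ) := Continuous.continuousOn (by fun_prop)
    exact hcomp.isClosed.isClosed_le h1 h2
  · have : prox g κ x₀ ρ = ∅ := by
      rw [not_nonempty_iff_eq_empty] at hne
      ext p
      simp [prox, hne]
    rw [this]
    exact isCompact_empty

theorem exists_prox {g : E → ℝ} {κ : ℝ} {x₀ : E} {ρ : ℝ} (hρ : 0 ≤ ρ)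
    (hg : ContinuousOn g (closedBall x₀ ρ)) {v : E} (hv : v ∈ closedBall x₀ (ρ / 2)) :
    ∃ w, (v, w) ∈ prox g κ x₀ ρ := by
  have hcont : ContinuousOn (fun w => g w + κ / 2 * ‖v - w‖ ^ 2) (closedBall x₀ ρ) := by
    refine hg.add ?_
    exact Continuous.continuousOn (by fun_prop)
  obtain ⟨w, hw, hmin⟩ := (isCompact_closedBall x₀ ρ).exists_isMinOn
    ⟨x₀, mem_closedBall_self hρ⟩ hcont
  exact ⟨w, ⟨hv, hw⟩, fun w' hw' => hmin hw'⟩

omit [InnerProductSpace ℝ E] [FiniteDimensional ℝ E] in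
theorem prox_mem_ball {g : E → ℝ} {κ : ℝ} {x₀ : E} {ρ : ℝ} (hρ : 0 < ρ) {M : ℝ}
    (hM : ∀ x ∈ closedBall x₀ ρ, ∀ y ∈ closedBall x₀ ρ, g x - g y ≤ M) (hκ : M < κ * ρ ^ 2 / 8)
    (hκ0 : 0 ≤ κ)
    {v w : E} (h : (v, w) ∈ prox g κ x₀ ρ) : w ∈ ball x₀ ρ := by
  obtain ⟨⟨hv, hw⟩, hmin⟩ := h
  simp only at hv hw hmin
  by_contra hcon
  have hw' : ‖w - x₀‖ = ρ := by
    rw [mem_ball, not_lt, dist_eq_norm] at hcon
    rw [mem_closedBall, dist_eq_norm] at hw
    exact le_antisymm hw hcon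
  have hvw : ρ / 2 ≤ ‖v - w‖ := by
    rw [mem_closedBall, dist_eq_norm] at hv
    have : ‖w - x₀‖ ≤ ‖v - w‖ + ‖v - x₀‖ := by
      have h1 : w - x₀ = -(v - w) + (v - x₀) := by abel
      calc ‖w - x₀‖ = ‖-(v - w) + (v - x₀)‖ := by rw [← h1]
        _ ≤ ‖-(v - w)‖ + ‖v - x₀‖ := norm_add_le _ _
        _ = _ := by rw [norm_neg]
    linarith
  have hvb : v ∈ closedBall x₀ ρ := closedBall_subset_closedBall (by linarith) hv
  have h1 := hmin v hvb
  rw [sub_self, norm_zero] at h1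
  have h2 := hM v hvb w hw
  have h3 : κ / 2 * (ρ / 2) ^ 2 ≤ κ / 2 * ‖v - w‖ ^ 2 := by gcongr
  nlinarith

theorem gradient_prox {g : E → ℝ} {κ : ℝ} {x₀ : E} {ρ : ℝ} {v w : E}
    (h : (v, w) ∈ prox g κ x₀ ρ) (hw : w ∈ ball x₀ ρ) (hd : DifferentiableAt ℝ g w) :
    gradient g w = κ • (v - w) := by
  have hloc : IsLocalMin (fun w' => g w' + κ / 2 * ‖v - w'‖ ^ 2) w := by
    filter_upwards [isOpen_ball.mem_nhds hw] with w' hw'
    exact h.2 w' (ball_subset_closedBall hw')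
  have h1 : HasFDerivAt (fun w' : E => v - w') (-(ContinuousLinearMap.id ℝ E)) w :=
    (hasFDerivAt_id w).const_sub v
  have h2 := h1.norm_sq.const_mul (κ / 2)
  have h3 := hd.hasFDerivAt.add h2
  have h4 := hloc.hasFDerivAt_eq_zero h3
  refine ext_inner_right ℝ fun y => ?_
  have h5 := congrArg (fun L : E →L[ℝ] ℝ => L y) h4
  simp only [ContinuousLinearMap.add_apply, ContinuousLinearMap.smul_apply,
    ContinuousLinearMap.comp_apply, ContinuousLinearMap.neg_apply, ContinuousLinearMap.id_apply,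
    innerSL_apply_apply, inner_neg_right, smul_eq_mul, ContinuousLinearMap.zero_apply] at h5
  rw [gradient, InnerProductSpace.toDual_symm_apply, inner_smul_left]
  simp only [conj_trivial]
  have h6 : fderiv ℝ g w y + κ / 2 * (2 • (-(inner ℝ (v - w) y))) = 0 := by
    simpa using h5
  rw [two_smul] at h6
  linarith

omit [FiniteDimensional ℝ E] in
theorem prox_mono {g : E → ℝ} {κ : ℝ} (hκ : 0 < κ) {x₀ : E} {ρ : ℝ} {v w v' w' : E}
    (h : (v, w) ∈ prox g κ x₀ ρ) (h' : (v', w') ∈ prox g κ x₀ ρ) :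
    0 ≤ inner ℝ (v - v') (w - w') := by
  have h1 := h.2 w' h'.1.2
  have h2 := h'.2 w h.1.2
  simp only at h1 h2
  have e1 : ‖v - w'‖ ^ 2 + ‖v' - w‖ ^ 2 - ‖v - w‖ ^ 2 - ‖v' - w'‖ ^ 2 = 2 * inner ℝ (v - v') (w - w') := by
    simp only [@norm_sub_sq_real, inner_sub_left, inner_sub_right]
    ring
  have : 0 ≤ κ * (‖v - w'‖ ^ 2 + ‖v' - w‖ ^ 2 - ‖v - w‖ ^ 2 - ‖v' - w'‖ ^ 2) := by nlinarith
  have := nonneg_of_mul_nonneg_right this hκ
  linarith

end Pool.Agent.W769.Cons
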