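import Pool.Agent.W769.Cons.Meas
import Pool.Agent.W769.Cons.Prox

set_option autoImplicit false

/-!
# The graph of a gradient contains a large Lipschitz piece

Let `g` be differentiable at every point of a ball, `b` Lipschitz, `V` Lipschitz and strongly
monotone.  Then there are a compact set `Z` of positive measure and a Lipschitz map `Q` of `Z` into
the ball such that `∇ g (Q z) + b (Q z) + t V (Q z) = z + β z + (t - τ) ν z` with `β`, `ν` Lipschitz,
`β` with constant less than one.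
-/

open MeasureTheory Set Metric Filter Topology Module
open scoped NNReal ENNReal

namespace Pool.Agent.W769.Cons

variable {E : Type*} [NormedAddCommGroup E] [InnerProductSpace ℝ E] [FiniteDimensional ℝ E]
  [MeasurableSpace E] [BorelSpace E]

theorem null_lipschitz_image (μ : Measure E) [μ.IsAddHaarMeasure] {f : E → E} {K : ℝ≥0}
    {s : Set E} (hf : LipschitzOnWith K f s) (hs : μ s = 0) : μ (f '' s) = 0 := by
  have h1 : (μH[finrank ℝ E] : Measure E) s = 0 :=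
    (Measure.absolutelyContinuous_isAddHaarMeasure (μH[finrank ℝ E] : Measure E) μ) hs
  have h2 : (μH[finrank ℝ E] : Measure E) (f '' s) = 0 := by
    have := hf.hausdorffMeasure_image_le (d := finrank ℝ E) (by positivity)
    rw [h1, mul_zero] at this
    exact nonpos_iff_eq_zero.1 this
  exact (Measure.absolutelyContinuous_isAddHaarMeasure μ (μH[finrank ℝ E] : Measure E)) h2

theorem core (μ : Measure E) [μ.IsAddHaarMeasure] {g : E → ℝ} {b V : E → E} {x₀ : E} {ρ : ℝ}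
    (hρ : 0 < ρ) (hg : ∀ x ∈ closedBall x₀ ρ, DifferentiableAt ℝ g x) {Lb Lv : ℝ≥0}
    (hb : LipschitzOnWith Lb b (closedBall x₀ ρ)) (hV : LipschitzOnWith Lv V (closedBall x₀ ρ))
    {c : ℝ} (hc : 0 < c)
    (hmono : ∀ x ∈ closedBall x₀ ρ, ∀ y ∈ closedBall x₀ ρ,
      c * ‖x - y‖ ^ 2 ≤ inner ℝ (V x - V y) (x - y)) :
    ∃ (Z : Set E) (Q β ν : E → E) (kβ kν : ℝ≥0) (τ : ℝ), IsCompact Z ∧ μ Z ≠ 0 ∧
      MapsTo Q Z (closedBall x₀ ρ) ∧ LipschitzWith kβ β ∧ kβ < 1 ∧ LipschitzWith kν ν ∧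
      ∀ z ∈ Z, ∀ t : ℝ, gradient g (Q z) + b (Q z) + t • V (Q z) = z + β z + (t - τ) • ν z := by
  classical
  have hgc : ContinuousOn g (closedBall x₀ ρ) := fun x hx => (hg x hx).continuousAt.continuousWithinAt
  obtain ⟨M, hM⟩ := (isCompact_closedBall x₀ ρ).exists_bound_of_continuousOn hgc
  have hM0 : 0 ≤ M := (norm_nonneg _).trans (hM x₀ (mem_closedBall_self hρ.le))
  have hosc : ∀ x ∈ closedBall x₀ ρ, ∀ y ∈ closedBall x₀ ρ, g x - g y ≤ 2 * M := by
    intro x hx y hy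
    have h1 := (abs_le.1 (hM x hx)).2
    have h2 := (abs_le.1 (hM y hy)).1
    linarith
  set κ : ℝ := (16 * M + 8) / ρ ^ 2 with hκ
  have hκ0 : 0 < κ := by positivity
  have hκM : 2 * M < κ * ρ ^ 2 / 8 := by
    rw [hκ, div_mul_cancel₀ _ (by positivity)]
    linarith
  set CE : ℝ≥0 := lipschitzExtensionConstant E with hCE
  set m : ℝ := CE * Lb + 1 with hm
  have hm0 : 0 < m := by positivity
  set τ : ℝ := (m + κ) / c with hτ
  have hτ0 : 0 < τ := by positivity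
  have hτc : τ * c = m + κ := by rw [hτ, div_mul_cancel₀ _ hc.ne']
  set Φ : E × E → E := fun p => κ • (p.1 - p.2) + τ • V p.2 with hΦ
  -- the two Lipschitz estimates
  have hest : ∀ p ∈ prox g κ x₀ ρ, ∀ q ∈ prox g κ x₀ ρ, m * ‖p.2 - q.2‖ ≤ ‖Φ p - Φ q‖ := by
    intro p hp q hq
    have h1 := prox_mono hκ0 (v := p.1) (w := p.2) (v' := q.1) (w' := q.2) hp hq
    have h2 := hmono p.2 hp.1.2 q.2 hq.1.2
    have h3 : inner ℝ (Φ p - Φ q) (p.2 - q.2) = κ * inner ℝ (p.1 - q.1) (p.2 - q.2)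
        - κ * ‖p.2 - q.2‖ ^ 2 + τ * inner ℝ (V p.2 - V q.2) (p.2 - q.2) := by
      have : Φ p - Φ q = κ • (p.1 - q.1) - κ • (p.2 - q.2) + τ • (V p.2 - V q.2) := by
        simp only [hΦ, smul_sub]
        abel
      rw [this, inner_add_left, inner_sub_left, real_inner_smul_left, real_inner_smul_left,
        real_inner_smul_left, real_inner_self_eq_norm_sq]
    have h4 : inner ℝ (Φ p - Φ q) (p.2 - q.2) ≤ ‖Φ p - Φ q‖ * ‖p.2 - q.2‖ :=
      real_inner_le_norm _ _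
    have h5 : m * ‖p.2 - q.2‖ ^ 2 ≤ ‖Φ p - Φ q‖ * ‖p.2 - q.2‖ := by
      have h6 : τ * (c * ‖p.2 - q.2‖ ^ 2) ≤ τ * inner ℝ (V p.2 - V q.2) (p.2 - q.2) := by gcongr
      have h7 : 0 ≤ κ * inner ℝ (p.1 - q.1) (p.2 - q.2) := mul_nonneg hκ0.le h1
      have h8 : τ * (c * ‖p.2 - q.2‖ ^ 2) = (m + κ) * ‖p.2 - q.2‖ ^ 2 := by
        rw [← mul_assoc, hτc]
      nlinarith
    rcases (norm_nonneg (p.2 - q.2)).eq_or_lt with h0 | h0
    · rw [← h0, mul_zero]
      exact norm_nonneg _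
    · by_contra hcon
      rw [not_le] at hcon
      have := mul_lt_mul_of_pos_right hcon h0
      nlinarith
  set CP : ℝ := (1 + (κ + τ * Lv) / m) / κ with hCP
  have hCP0 : 0 ≤ CP := by positivity
  have hest1 : ∀ p ∈ prox g κ x₀ ρ, ∀ q ∈ prox g κ x₀ ρ, ‖p.1 - q.1‖ ≤ CP * ‖Φ p - Φ q‖ := by
    intro p hp q hq
    have h1 := hest p hp q hq
    have h2 : κ • (p.1 - q.1) = (Φ p - Φ q) + κ • (p.2 - q.2) - τ • (V p.2 - V q.2) := by
      simp only [hΦ, smul_sub]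
      abel
    have h3 : ‖V p.2 - V q.2‖ ≤ Lv * ‖p.2 - q.2‖ := by
      have := hV.dist_le_mul p.2 hp.1.2 q.2 hq.1.2
      rwa [dist_eq_norm, dist_eq_norm] at this
    have h4 : κ * ‖p.1 - q.1‖ ≤ ‖Φ p - Φ q‖ + κ * ‖p.2 - q.2‖ + τ * (Lv * ‖p.2 - q.2‖) := by
      have : ‖κ • (p.1 - q.1)‖ ≤ ‖Φ p - Φ q‖ + ‖κ • (p.2 - q.2)‖ + ‖τ • (V p.2 - V q.2)‖ := by
        rw [h2]
        refine (norm_sub_le _ _).trans ?_
        gcongr
        exact norm_add_le _ _
      rw [norm_smul, norm_smul, norm_smul, Real.norm_of_nonneg hκ0.le,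
        Real.norm_of_nonneg hτ0.le] at this
      refine this.trans ?_
      gcongr
    have h5 : ‖p.2 - q.2‖ ≤ ‖Φ p - Φ q‖ / m := by
      rw [le_div_iff₀ hm0, mul_comm]
      exact h1
    have h6 : κ * ‖p.1 - q.1‖ ≤ (1 + (κ + τ * Lv) / m) * ‖Φ p - Φ q‖ := by
      calc κ * ‖p.1 - q.1‖ ≤ ‖Φ p - Φ q‖ + κ * ‖p.2 - q.2‖ + τ * (Lv * ‖p.2 - q.2‖) := h4
        _ = ‖Φ p - Φ q‖ + (κ + τ * Lv) * ‖p.2 - q.2‖ := by ring
        _ ≤ ‖Φ p - Φ q‖ + (κ + τ * Lv) * (‖Φ p - Φ q‖ / m) := by gcongr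
        _ = _ := by ring
    rw [hCP, div_mul_eq_mul_div, le_div_iff₀ hκ0, mul_comm]
    exact h6
  set Z : Set E := Φ '' prox g κ x₀ ρ with hZ
  have hpc : IsCompact (prox g κ x₀ ρ) := isCompact_prox hgc
  have hΦc : ContinuousOn Φ (prox g κ x₀ ρ) := by
    refine ContinuousOn.add (Continuous.continuousOn (by fun_prop)) ?_
    exact (hV.continuousOn.comp continuousOn_snd fun p hp => hp.1.2).const_smul τ
  have hZc : IsCompact Z := hpc.image_of_continuousOn hΦc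
  have hch : ∀ z : E, ∃ p : E × E, z ∈ Z → p ∈ prox g κ x₀ ρ ∧ Φ p = z := by
    intro z
    by_cases hz : z ∈ Z
    · obtain ⟨p, hp, hpz⟩ := hz
      exact ⟨p, fun _ => ⟨hp, hpz⟩⟩
    · exact ⟨(0, 0), fun h => absurd h hz⟩
  choose R hR using hch
  have hQlip : LipschitzOnWith (Real.toNNReal (1 / m)) (fun z => (R z).2) Z := by
    refine LipschitzOnWith.of_dist_le_mul fun z hz z' hz' => ?_
    have h1 := hest _ (hR z hz).1 _ (hR z' hz').1
    rw [(hR z hz).2, (hR z' hz').2] at h1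
    rw [Real.coe_toNNReal _ (by positivity), dist_eq_norm, dist_eq_norm, one_div,
      ← div_eq_inv_mul, le_div_iff₀ hm0, mul_comm]
    exact h1
  have hPlip : LipschitzOnWith (Real.toNNReal CP) (fun z => (R z).1) Z := by
    refine LipschitzOnWith.of_dist_le_mul fun z hz z' hz' => ?_
    have h1 := hest1 _ (hR z hz).1 _ (hR z' hz').1
    rw [(hR z hz).2, (hR z' hz').2] at h1
    rw [Real.coe_toNNReal _ hCP0, dist_eq_norm, dist_eq_norm]
    exact h1
  have hsurj : closedBall x₀ (ρ / 2) ⊆ (fun z => (R z).1) '' Z := by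
    intro v hv
    obtain ⟨w, hw⟩ := exists_prox (κ := κ) hρ.le hgc hv
    have hz : Φ (v, w) ∈ Z := ⟨_, hw, rfl⟩
    refine ⟨Φ (v, w), hz, ?_⟩
    have h1 := hest1 _ (hR _ hz).1 _ hw
    rw [(hR _ hz).2, sub_self, norm_zero, mul_zero] at h1
    have h2 : (R (Φ (v, w))).1 - v = 0 := norm_le_zero_iff.1 h1
    exact sub_eq_zero.1 h2
  have hZpos : μ Z ≠ 0 := by
    intro h0
    have h1 := null_lipschitz_image μ hPlip h0
    have h2 := measure_mono_null hsurj h1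
    exact (measure_closedBall_pos μ x₀ (by positivity : (0 : ℝ) < ρ / 2)).ne' h2
  have hQmaps : MapsTo (fun z => (R z).2) Z (closedBall x₀ ρ) := fun z hz => (hR z hz).1.1.2
  have hbQ : LipschitzOnWith (Lb * Real.toNNReal (1 / m)) (fun z => b (R z).2) Z :=
    hb.comp hQlip hQmaps
  have hVQ : LipschitzOnWith (Lv * Real.toNNReal (1 / m)) (fun z => V (R z).2) Z :=
    hV.comp hQlip hQmaps
  obtain ⟨β, hβ, hβe⟩ := hbQ.extend_finite_dimension
  obtain ⟨ν, hν, hνe⟩ := hVQ.extend_finite_dimension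
  refine ⟨Z, fun z => (R z).2, β, ν, _, _, τ, hZc, hZpos, hQmaps, hβ, ?_, hν, ?_⟩
  · rw [← NNReal.coe_lt_coe]
    push_cast
    rw [Real.coe_toNNReal _ (by positivity), ← mul_assoc, mul_one_div, div_lt_one hm0, hm]
    linarith
  · intro z hz t
    obtain ⟨hp, hpz⟩ := hR z hz
    have hball : (R z).2 ∈ ball x₀ ρ := prox_mem_ball hρ hosc hκM hκ0.le hp
    have hgrad : gradient g (R z).2 = κ • ((R z).1 - (R z).2) :=
      gradient_prox hp hball (hg _ hp.1.2)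
    have e1 : β z = b (R z).2 := (hβe hz).symm
    have e2 : ν z = V (R z).2 := (hνe hz).symm
    rw [e1, e2, hgrad]
    have e3 : κ • ((R z).1 - (R z).2) = z - τ • V (R z).2 := by
      rw [eq_sub_iff_add_eq]
      exact hpz
    rw [e3, sub_smul]
    abel

end Pool.Agent.W769.Cons
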