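import Mathlib

set_option autoImplicit false

/-!
# Pencils of Lipschitz maps: images of positive measure

If `s` has positive measure and `β`, `ν` are Lipschitz, `β` with constant less than one, then for all
but at most `dim E` values of `t` the image of `s` under `z ↦ z + β z + (t - τ) ν z` has positive
measure.
-/

open MeasureTheory Set Metric Filter Topology Module
open scoped NNReal ENNReal

namespace Pool.Agent.W769.Cons

variable {E : Type*} [NormedAddCommGroup E] [NormedSpace ℝ E] [FiniteDimensional ℝ E]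
  [MeasurableSpace E] [BorelSpace E]

theorem null_of_null_image (μ : Measure E) [μ.IsAddHaarMeasure] {f : E → E}
    {f' : E → E →L[ℝ] E} {s : Set E} (hf : ∀ x ∈ s, HasFDerivWithinAt f (f' x) s x)
    (h0 : μ (f '' s) = 0) (hdet : ∀ x ∈ s, (f' x).det ≠ 0) : μ s = 0 := by
  classical
  rcases s.eq_empty_or_nonempty with rfl | hne
  · simp
  have key : ∀ A : E →L[ℝ] E, ∃ r : ℝ≥0, r ≠ 0 ∧ (A.det ≠ 0 → ∀ (u : Set E) (g : E → E),
      ApproximatesLinearOn g A u r → μ (g '' u) = 0 → μ u = 0) := by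
    intro A
    by_cases hA : A.det = 0
    · exact ⟨1, one_ne_zero, fun h => absurd hA h⟩
    · have hpos : 0 < |A.det| := abs_pos.2 hA
      obtain ⟨m, hm⟩ : ∃ m : ℝ≥0, (m : ℝ) = |A.det| / 2 := ⟨⟨|A.det| / 2, by positivity⟩, rfl⟩
      have hm0 : (m : ℝ≥0∞) ≠ 0 := by
        rw [ENNReal.coe_ne_zero]
        intro h
        rw [h, NNReal.coe_zero] at hm
        linarith
      have hlt : (m : ℝ≥0∞) < ENNReal.ofReal |A.det| := by
        rw [ENNReal.lt_ofReal_iff_toReal_lt ENNReal.coe_ne_top, ENNReal.coe_toReal, hm]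
        linarith
      have hev := mul_le_addHaar_image_of_lt_det μ A hlt
      obtain ⟨r, hr, hr0⟩ := (hev.and self_mem_nhdsWithin).exists
      refine ⟨r, (show (0 : ℝ≥0) < r from hr0).ne', fun _ u g hg hz => ?_⟩
      have := hr u g hg
      rw [hz, nonpos_iff_eq_zero, mul_eq_zero] at this
      exact this.resolve_left hm0
  choose r hr0 hr using key
  obtain ⟨t, A, -, hcov, happ, hA⟩ :=
    exists_closed_cover_approximatesLinearOn_of_hasFDerivWithinAt f s f' hf r hr0
  have hnull : ∀ n, μ (s ∩ t n) = 0 := by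
    intro n
    obtain ⟨y, hy, hyA⟩ := hA hne n
    refine hr (A n) (by rw [hyA]; exact hdet y hy) _ f (happ n) ?_
    exact measure_mono_null (image_mono inter_subset_left) h0
  have : s ⊆ ⋃ n, s ∩ t n := by
    rw [← inter_iUnion]
    exact subset_inter subset_rfl hcov
  exact measure_mono_null this (measure_iUnion_null hnull)

omit [MeasurableSpace E] [BorelSpace E] in
theorem det_pencil (A B : E →L[ℝ] E) (τ : ℝ) (T : Finset ℝ) (hT : finrank ℝ E < T.card)
    (h : ∀ t ∈ T, (A + (t - τ) • B).det = 0) : A.det = 0 := by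
  classical
  set bs := Module.finBasis ℝ E
  set MA := LinearMap.toMatrix bs bs (A : E →ₗ[ℝ] E) with hMA
  set MB := LinearMap.toMatrix bs bs (B : E →ₗ[ℝ] E) with hMB
  set p : Polynomial ℝ := Matrix.det ((Polynomial.X : Polynomial ℝ) • MB.map Polynomial.C +
    (MA - τ • MB).map Polynomial.C) with hp
  have heval : ∀ t : ℝ, p.eval t = (A + (t - τ) • B).det := by
    intro t
    have h1 : (A + (t - τ) • B).det
        = Matrix.det (LinearMap.toMatrix bs bs ((A + (t - τ) • B : E →L[ℝ] E) : E →ₗ[ℝ] E)) := by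
      rw [LinearMap.det_toMatrix]
    have h2 : LinearMap.toMatrix bs bs ((A + (t - τ) • B : E →L[ℝ] E) : E →ₗ[ℝ] E)
        = MA + (t - τ) • MB := by
      rw [ContinuousLinearMap.toLinearMap_add, ContinuousLinearMap.toLinearMap_smul, map_add,
        map_smul]
    rw [h1, h2, hp, ← Polynomial.coe_evalRingHom, RingHom.map_det]
    congr 1
    ext i j
    simp [Matrix.add_apply, Matrix.smul_apply]
    try ring
  have hp0 : p = 0 := by
    refine Polynomial.eq_zero_of_natDegree_lt_card_of_eval_eq_zero' p T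
      (fun t ht => by rw [heval, h t ht]) ?_
    refine lt_of_le_of_lt (Polynomial.natDegree_det_X_add_C_le _ _) ?_
    rwa [Fintype.card_fin]
  have := heval τ
  rw [hp0, Polynomial.eval_zero, sub_self, zero_smul, add_zero] at this
  exact this.symm

omit [MeasurableSpace E] [BorelSpace E] in
theorem det_one_add_ne_zero (B : E →L[ℝ] E) (hB : ‖B‖ < 1) :
    (ContinuousLinearMap.id ℝ E + B).det ≠ 0 := by
  intro h
  have hlin : LinearMap.det ((ContinuousLinearMap.id ℝ E + B : E →L[ℝ] E) : E →ₗ[ℝ] E) = 0 := h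
  have := LinearMap.bot_lt_ker_of_det_eq_zero hlin
  obtain ⟨x, hx, hx0⟩ := Submodule.exists_mem_ne_zero_of_ne_bot this.ne'
  rw [LinearMap.mem_ker] at hx
  have hx' : x + B x = 0 := hx
  have hxB : x = - B x := eq_neg_of_add_eq_zero_left hx'
  have hn : ‖x‖ = ‖B x‖ := by
    conv_lhs => rw [hxB]
    rw [norm_neg]
  have h1 : ‖B x‖ ≤ ‖B‖ * ‖x‖ := B.le_opNorm x
  have h2 : 0 < ‖x‖ := norm_pos_iff.2 hx0
  nlinarith

theorem exists_pos_image (μ : Measure E) [μ.IsAddHaarMeasure] {β ν : E → E} {kβ kν : ℝ≥0}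
    (hβ : LipschitzWith kβ β) (hβ1 : kβ < 1) (hν : LipschitzWith kν ν) {s : Set E} (hs : μ s ≠ 0)
    (τ : ℝ) (T : Finset ℝ) (hT : finrank ℝ E < T.card) :
    ∃ t ∈ T, μ ((fun z => z + β z + (t - τ) • ν z) '' s) ≠ 0 := by
  classical
  by_contra hcon
  push Not at hcon
  set D : Set E := {z | DifferentiableAt ℝ β z ∧ DifferentiableAt ℝ ν z} with hD
  have hDae : μ Dᶜ = 0 := by
    have h1 := hβ.ae_differentiableAt (μ := μ)
    have h2 := hν.ae_differentiableAt (μ := μ)
    exact (h1.and h2 : ∀ᵐ z ∂μ, DifferentiableAt ℝ β z ∧ DifferentiableAt ℝ ν z)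
  set F' : ℝ → E → E →L[ℝ] E := fun t z =>
    (ContinuousLinearMap.id ℝ E + fderiv ℝ β z) + (t - τ) • fderiv ℝ ν z with hF'
  set S : ℝ → Set E := fun t => {z ∈ s ∩ D | (F' t z).det ≠ 0} with hS
  have hSnull : ∀ t ∈ T, μ (S t) = 0 := by
    intro t ht
    refine null_of_null_image μ (f := fun z => z + β z + (t - τ) • ν z) (f' := F' t) ?_ ?_
      (fun x hx => hx.2)
    · rintro x ⟨⟨-, hxD⟩, -⟩
      have h1 := ((hasFDerivAt_id x).add hxD.1.hasFDerivAt).add
        (hxD.2.hasFDerivAt.const_smul (t - τ))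
      exact h1.hasFDerivWithinAt
    · refine measure_mono_null (image_mono ?_) (hcon t ht)
      rintro x ⟨⟨hx, -⟩, -⟩
      exact hx
  have hunion : μ (Dᶜ ∪ ⋃ t ∈ T, S t) = 0 := by
    refine measure_union_null hDae ?_
    exact (measure_biUnion_null_iff T.countable_toSet).2 hSnull
  have hne : ∃ z ∈ s, z ∉ Dᶜ ∪ ⋃ t ∈ T, S t := by
    by_contra h
    push Not at h
    exact hs (measure_mono_null h hunion)
  obtain ⟨z, hz, hzn⟩ := hne
  simp only [mem_union, mem_compl_iff, not_or, not_not, mem_iUnion, not_exists] at hzn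
  have hdet : (ContinuousLinearMap.id ℝ E + fderiv ℝ β z).det = 0 := by
    refine det_pencil _ (fderiv ℝ ν z) τ T hT ?_
    intro t ht
    by_contra h
    exact hzn.2 t ht ⟨⟨hz, hzn.1⟩, h⟩
  refine det_one_add_ne_zero _ ?_ hdet
  have := norm_fderiv_le_of_lipschitz ℝ hβ (x₀ := z)
  exact lt_of_le_of_lt this (by exact_mod_cast hβ1)

/-- All but at most `dim E` of the maps of the pencil have an image of positive measure. -/
theorem encard_bad_le (μ : Measure E) [μ.IsAddHaarMeasure] {β ν : E → E} {kβ kν : ℝ≥0}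
    (hβ : LipschitzWith kβ β) (hβ1 : kβ < 1) (hν : LipschitzWith kν ν) {s : Set E} (hs : μ s ≠ 0)
    (τ : ℝ) :
    {t : ℝ | μ ((fun z => z + β z + (t - τ) • ν z) '' s) = 0}.encard ≤ finrank ℝ E := by
  by_contra hcon
  rw [not_le] at hcon
  have h1 : ((finrank ℝ E + 1 : ℕ) : ℕ∞) ≤
      {t : ℝ | μ ((fun z => z + β z + (t - τ) • ν z) '' s) = 0}.encard := by
    have := Order.add_one_le_of_lt hcon
    simpa using this
  obtain ⟨T, hTsub, hTcard⟩ := Set.exists_subset_encard_eq h1
  have hTfin : T.Finite := Set.finite_of_encard_eq_coe hTcard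
  obtain ⟨t, ht, hpos⟩ := exists_pos_image μ hβ hβ1 hν hs τ hTfin.toFinset (by
    have : hTfin.toFinset.card = finrank ℝ E + 1 := by
      have h2 := hTfin.encard_eq_coe_toFinset_card
      rw [hTcard] at h2
      exact_mod_cast h2.symm
    omega)
  exact hpos (hTsub (hTfin.mem_toFinset.1 ht))

end Pool.Agent.W769.Cons
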