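import Pool.Agent.W769.Cons.Wrap

set_option autoImplicit false

/-!
# Families of normal lines `{∇h(e) + s e}`
-/

open MeasureTheory Set Metric Filter Topology Module
open scoped NNReal ENNReal

namespace Pool.Agent.W769.Cons

variable {n : ℕ}

/-- The gradient of a positively homogeneous function of degree one is homogeneous of degree
zero. -/
theorem gradient_smul {C : Set (E n)} (hC : IsOpen C) {h : E n → ℝ}
    (hd : ∀ x ∈ C, DifferentiableAt ℝ h x) (hh : ∀ x ∈ C, ∀ r : ℝ, 0 < r → h (r • x) = r * h x)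
    (hcone : ∀ x ∈ C, ∀ r : ℝ, 0 < r → r • x ∈ C) {x : E n} (hx : x ∈ C) {r : ℝ} (hr : 0 < r) :
    gradient h (r • x) = gradient h x := by
  have hrx := hcone x hx r hr
  have h1 : HasFDerivAt (fun y : E n => r⁻¹ * h (r • y))
      (r⁻¹ • (fderiv ℝ h (r • x)).comp (r • ContinuousLinearMap.id ℝ (E n))) x := by
    have h2 : HasFDerivAt (fun y : E n => r • y) (r • ContinuousLinearMap.id ℝ (E n)) x :=
      (hasFDerivAt_id x).const_smul r
    exact ((hd _ hrx).hasFDerivAt.comp x h2).const_mul r⁻¹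
  have h3 : (fun y : E n => r⁻¹ * h (r • y)) =ᶠ[𝓝 x] h := by
    filter_upwards [hC.mem_nhds hx] with y hy
    rw [hh y hy r hr, ← mul_assoc, inv_mul_cancel₀ hr.ne', one_mul]
  have h4 := (h1.congr_of_eventuallyEq h3.symm).fderiv
  have h5 : fderiv ℝ h x = fderiv ℝ h (r • x) := by
    rw [h4]
    ext y
    simp only [ContinuousLinearMap.smul_apply, ContinuousLinearMap.comp_apply,
      ContinuousLinearMap.id_apply, map_smul, smul_eq_mul]
    rw [← mul_assoc, inv_mul_cancel₀ hr.ne', one_mul]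
  rw [gradient, gradient, h5]

theorem exists_ne_zero (hn : 1 ≤ n) {C : Set (E n)} (hC : IsOpen C) (hne : C.Nonempty) :
    ∃ x ∈ C, x ≠ 0 := by
  obtain ⟨x, hx⟩ := hne
  by_cases h0 : x = 0
  · subst h0
    have : Nonempty (Fin n) := ⟨⟨0, hn⟩⟩
    obtain ⟨ρ, hρ, hs⟩ := Metric.isOpen_iff.1 hC 0 hx
    obtain ⟨e, he⟩ := exists_norm_eq (E n) (by positivity : (0 : ℝ) ≤ ρ / 2)
    refine ⟨e, hs ?_, ?_⟩
    · rw [mem_ball_zero_iff, he]
      linarith
    · intro h
      rw [h, norm_zero] at he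
      linarith
  · exact ⟨x, hx, h0⟩

/-- **Normal lines, one common interval.** -/
theorem normals_common (hn : 1 ≤ n) {C : Set (E n)} (hC : IsOpen C) (hne : C.Nonempty)
    (hcone : ∀ x ∈ C, ∀ r : ℝ, 0 < r → r • x ∈ C) {h : E n → ℝ}
    (hd : ∀ x ∈ C, DifferentiableAt ℝ h x) (hh : ∀ x ∈ C, ∀ r : ℝ, 0 < r → h (r • x) = r * h x)
    {b : E n → E n} (hb : LocallyLipschitzOn C b)
    (hbh : ∀ x ∈ C, ∀ r : ℝ, 0 < r → b (r • x) = b x) {K : Set (E n)} {s₁ s₂ : ℝ} (h12 : s₁ < s₂)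
    (hK : ∀ e ∈ C, ‖e‖ = 1 → ∀ s ∈ Icc s₁ s₂, gradient h e + b e + s • e ∈ K) : 0 < volume K := by
  -- an open set of radii and an interval of `λ`
  have hchoice : ∃ r > 1, ∃ l₁ l₂ : ℝ, l₁ < l₂ ∧ ∀ l ∈ Ioo l₁ l₂, ∀ ρ ∈ Ioo 1 r,
      l * ρ ∈ Icc s₁ s₂ := by
    rcases lt_or_ge 0 s₂ with h2 | h2
    · -- positive part
      set a : ℝ := max s₁ (s₂ / 2) with ha
      have ha0 : 0 < a := lt_of_lt_of_le (by positivity) (le_max_right _ _)
      have has : a < s₂ := max_lt h12 (by linarith)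
      have ha1 : s₁ ≤ a := le_max_left _ _
      set r : ℝ := Real.sqrt (s₂ / a) with hr
      have hq : 1 < s₂ / a := by rwa [lt_div_iff₀ ha0, one_mul]
      have hr1 : 1 < r := by rw [hr]; exact Real.lt_sqrt_of_sq_lt (by simpa using hq)
      have hrr : r * r = s₂ / a := Real.mul_self_sqrt (by linarith)
      refine ⟨r, hr1, a, a * r, by nlinarith, ?_⟩
      intro l hl ρ hρ
      have e1 : a * r * r = s₂ := by rw [mul_assoc, hrr, mul_div_cancel₀ _ ha0.ne']
      constructor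
      · have : a * 1 ≤ l * ρ := mul_le_mul hl.1.le hρ.1.le (by norm_num) (ha0.trans hl.1).le
        linarith
      · have : l * ρ ≤ a * r * r := mul_le_mul hl.2.le hρ.2.le (by linarith [hρ.1]) (by positivity)
        linarith
    · -- negative part
      have h1 : s₁ < 0 := lt_of_lt_of_le h12 h2
      set a : ℝ := min s₂ (s₁ / 2) with ha
      have ha0 : a < 0 := lt_of_le_of_lt (min_le_right _ _) (by linarith)
      have has : s₁ < a := lt_min h12 (by linarith)
      have ha1 : a ≤ s₂ := min_le_left _ _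
      set r : ℝ := Real.sqrt (s₁ / a) with hr
      have hq : 1 < s₁ / a := by rwa [lt_div_iff_of_neg ha0, one_mul]
      have hr1 : 1 < r := by rw [hr]; exact Real.lt_sqrt_of_sq_lt (by simpa using hq)
      have hrr : r * r = s₁ / a := Real.mul_self_sqrt (by linarith)
      refine ⟨r, hr1, a * r, a, by nlinarith, ?_⟩
      intro l hl ρ hρ
      have e1 : a * r * r = s₁ := by rw [mul_assoc, hrr, mul_div_cancel₀ _ ha0.ne]
      constructor
      · have h3 : (-l) * ρ ≤ (-(a * r)) * r := by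
          refine mul_le_mul (by linarith [hl.1]) hρ.2.le (by linarith [hρ.1]) ?_
          nlinarith
        nlinarith
      · have h3 : (-a) * 1 ≤ (-l) * ρ := by
          refine mul_le_mul (by linarith [hl.2]) hρ.1.le (by norm_num) ?_
          linarith [hl.2]
        nlinarith
  obtain ⟨r, hr, l₁, l₂, hl, hlρ⟩ := hchoice
  set U : Set (E n) := {x | x ∈ C ∧ 1 < ‖x‖ ∧ ‖x‖ < r} with hU
  have hUo : IsOpen U := by
    refine hC.inter ?_
    exact (isOpen_lt continuous_const continuous_norm).inter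
      (isOpen_lt continuous_norm continuous_const)
  have hUne : U.Nonempty := by
    obtain ⟨x, hx, hx0⟩ := exists_ne_zero hn hC hne
    have hx0' : 0 < ‖x‖ := norm_pos_iff.2 hx0
    refine ⟨((1 + r) / 2 / ‖x‖) • x, hcone x hx _ (by positivity), ?_, ?_⟩
    · rw [norm_smul, Real.norm_of_nonneg (by positivity), div_mul_cancel₀ _ hx0'.ne']
      linarith
    · rw [norm_smul, Real.norm_of_nonneg (by positivity), div_mul_cancel₀ _ hx0'.ne']
      linarith
  have hbad := slices (V := fun p => p) hUo hUne (fun p hp => hd p hp.1)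
    (b := b) (fun x hx => by
      obtain ⟨L, t, ht, hL⟩ := hb hx.1
      exact ⟨L, t, nhdsWithin_mono x (fun y hy => hy.1) ht, hL⟩)
    (locallyLipschitzOn_id U) (locStrMono_id U)
  have hfin := Set.finite_of_encard_le_coe hbad
  obtain ⟨l, hl', hlb⟩ := (Ioo_infinite hl).exists_notMem_finite hfin
  have hpos : 0 < volume ((fun p => gradient h p + b p + l • p) '' U) := by
    rw [pos_iff_ne_zero]
    exact hlb
  refine hpos.trans_le (measure_mono ?_)
  rintro _ ⟨x, ⟨hxC, hx1, hxr⟩, rfl⟩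
  have hx0 : 0 < ‖x‖ := by linarith
  have he : ‖x‖⁻¹ • x ∈ C := hcone x hxC _ (by positivity)
  have hen : ‖‖x‖⁻¹ • x‖ = 1 := by
    rw [norm_smul, norm_inv, norm_norm, inv_mul_cancel₀ hx0.ne']
  have := hK _ he hen (l * ‖x‖) (hlρ l hl' _ ⟨hx1, hxr⟩)
  rw [gradient_smul hC hd hh hcone hxC (by positivity), hbh x hxC _ (by positivity), smul_smul,
    mul_assoc, mul_inv_cancel₀ hx0.ne', mul_one] at this
  exact this

/-- **Normal lines, arbitrary intervals, closed set, continuous gradient.** -/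
theorem normals_closed (hn : 1 ≤ n) {C : Set (E n)} (hC : IsOpen C) (hne : C.Nonempty)
    (hcone : ∀ x ∈ C, ∀ r : ℝ, 0 < r → r • x ∈ C) {h : E n → ℝ}
    (hd : ∀ x ∈ C, DifferentiableAt ℝ h x) (hh : ∀ x ∈ C, ∀ r : ℝ, 0 < r → h (r • x) = r * h x)
    (hcont : ContinuousOn (gradient h) C)
    {b : E n → E n} (hb : LocallyLipschitzOn C b)
    (hbh : ∀ x ∈ C, ∀ r : ℝ, 0 < r → b (r • x) = b x) {K : Set (E n)} (hKc : IsClosed K)
    (hK : ∀ e ∈ C, ‖e‖ = 1 → ∃ s₁ s₂ : ℝ, s₁ < s₂ ∧ ∀ s ∈ Icc s₁ s₂,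
      gradient h e + b e + s • e ∈ K) : 0 < volume K := by
  set U : Set (E n) := {x | x ∈ C ∧ x ≠ 0} with hU
  have hUo : IsOpen U := hC.inter isOpen_ne
  have hUne : U.Nonempty := by
    obtain ⟨x, hx, hx0⟩ := exists_ne_zero hn hC hne
    exact ⟨x, hx, hx0⟩
  have hnorm : ∀ x ∈ U, ‖x‖⁻¹ • x ∈ C ∧ ‖‖x‖⁻¹ • x‖ = 1 ∧
      gradient h (‖x‖⁻¹ • x) = gradient h x ∧ b (‖x‖⁻¹ • x) = b x := by
    rintro x ⟨hx, hx0⟩
    have hx0' : 0 < ‖x‖ := norm_pos_iff.2 hx0
    refine ⟨hcone x hx _ (by positivity), ?_, gradient_smul hC hd hh hcone hx (by positivity),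
      hbh x hx _ (by positivity)⟩
    rw [norm_smul, norm_inv, norm_norm, inv_mul_cancel₀ hx0'.ne']
  have hbU : ContinuousOn b U := fun x hx =>
    (hb.continuousOn x hx.1).mono (fun y hy => hy.1)
  obtain ⟨W, s₁, s₂, hWo, hWne, hWU, h12, hWK⟩ := baire hUo hUne
    (F := fun x s => gradient h x + b x + s • (‖x‖⁻¹ • x)) (K := K) (by
      intro s
      have h1 : ContinuousOn (fun x : E n => s • (‖x‖⁻¹ • x)) U := by
        refine ContinuousOn.const_smul ?_ s
        have h2 : ContinuousOn (fun x : E n => ‖x‖⁻¹) U :=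
          (continuous_norm : Continuous fun x : E n => ‖x‖).continuousOn.inv₀
            fun x hx => norm_ne_zero_iff.2 hx.2
        exact h2.smul continuousOn_id
      exact ((hcont.mono fun x hx => hx.1).add hbU).add h1) hKc (by
      intro x hx
      obtain ⟨h1, h2, h3, h4⟩ := hnorm x hx
      obtain ⟨s₁, s₂, h12, hs⟩ := hK _ h1 h2
      refine ⟨s₁, s₂, h12, fun s hs' => ?_⟩
      have := hs s hs'
      rwa [h3, h4] at this)
  -- the cone over `W`
  set C' : Set (E n) := ⋃ r : {r : ℝ // 0 < r}, (fun x : E n => r.1⁻¹ • x) ⁻¹' W with hC'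
  have hC'mem : ∀ x : E n, x ∈ C' ↔ ∃ r : ℝ, 0 < r ∧ r⁻¹ • x ∈ W := by
    intro x
    simp [hC']
  have hC'o : IsOpen C' := isOpen_iUnion fun r => hWo.preimage (continuous_const_smul _)
  have hC'sub : C' ⊆ U := by
    intro x hx
    obtain ⟨r, hr, hxr⟩ := (hC'mem x).1 hx
    have h1 := hWU hxr
    have h2 : x = r • (r⁻¹ • x) := by rw [smul_smul, mul_inv_cancel₀ hr.ne', one_smul]
    refine ⟨?_, ?_⟩
    · rw [h2]
      exact hcone _ h1.1 r hr
    · intro h0
      apply h1.2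
      rw [h0, smul_zero]
  have hC'cone : ∀ x ∈ C', ∀ r : ℝ, 0 < r → r • x ∈ C' := by
    intro x hx r hr
    obtain ⟨q, hq, hxq⟩ := (hC'mem x).1 hx
    refine (hC'mem _).2 ⟨r * q, by positivity, ?_⟩
    rw [smul_smul, mul_inv, mul_comm r⁻¹, mul_assoc, inv_mul_cancel₀ hr.ne', mul_one]
    exact hxq
  have hC'ne : C'.Nonempty := by
    obtain ⟨x, hx⟩ := hWne
    exact ⟨x, (hC'mem x).2 ⟨1, one_pos, by simpa using hx⟩⟩
  refine normals_common hn hC'o hC'ne hC'cone (fun x hx => hd x (hC'sub hx).1)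
    (fun x hx => hh x (hC'sub hx).1) (b := b) ?_ (fun x hx => hbh x (hC'sub hx).1) h12 ?_
  · intro x hx
    obtain ⟨L, t, ht, hL⟩ := hb (hC'sub hx).1
    exact ⟨L, t, nhdsWithin_mono x (fun y hy => (hC'sub hy).1) ht, hL⟩
  · intro e he hen s hs
    obtain ⟨q, hq, heq⟩ := (hC'mem e).1 he
    have h1 := hWK _ heq s hs
    have h2 : ‖q⁻¹ • e‖ = q⁻¹ := by
      rw [norm_smul, hen, mul_one, Real.norm_of_nonneg (by positivity)]
    simp only [h2, inv_inv] at h1
    rw [gradient_smul hC hd hh hcone (hC'sub he).1 (by positivity),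
      hbh e (hC'sub he).1 _ (by positivity), smul_smul q, mul_inv_cancel₀ hq.ne', one_smul] at h1
    exact h1

/-- **Heights form, arbitrary intervals, closed set, continuous gradient.** -/
theorem union_closed {d : ℕ} {U : Set (E d)} (hU : IsOpen U) (hne : U.Nonempty) {g : E d → ℝ}
    (hg : ∀ p ∈ U, DifferentiableAt ℝ g p) (hcont : ContinuousOn (gradient g) U)
    {b V : E d → E d} (hb : LocallyLipschitzOn U b)
    (hV : LocallyLipschitzOn U V) (hm : LocStrMono U V) {K : Set (E (d + 1))} (hKc : IsClosed K)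
    (hK : ∀ p ∈ U, ∃ t₁ t₂ : ℝ, t₁ < t₂ ∧ ∀ t ∈ Icc t₁ t₂,
      pt t (gradient g p + b p + t • V p) ∈ K) : 0 < volume K := by
  obtain ⟨W, t₁, t₂, hWo, hWne, hWU, h12, hWK⟩ := baire hU hne
    (F := fun p t => pt t (gradient g p + b p + t • V p)) (K := K) (by
      intro t
      have h1 : ContinuousOn (fun p : E d => (t, gradient g p + b p + t • V p)) U :=
        continuousOn_const.prodMk ((hcont.add hb.continuousOn).add
          (hV.continuousOn.const_smul t))
      exact continuous_pt.comp_continuousOn h1) hKc hK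
  refine union_common hWo hWne (fun p hp => hg p (hWU hp)) (b := b) (V := V) ?_ ?_ ?_ h12 hWK
  · intro x hx
    obtain ⟨L, t, ht, hL⟩ := hb (hWU hx)
    exact ⟨L, t, nhdsWithin_mono x hWU ht, hL⟩
  · intro x hx
    obtain ⟨L, t, ht, hL⟩ := hV (hWU hx)
    exact ⟨L, t, nhdsWithin_mono x hWU ht, hL⟩
  · intro x hx
    exact hm x (hWU hx)

end Pool.Agent.W769.Cons
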