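import Pool.Agent.W769.Cons.Core

set_option autoImplicit false

/-!
# Slices and unions of conservative families of lines
-/

open MeasureTheory Set Metric Filter Topology Module
open scoped NNReal ENNReal

namespace Pool.Agent.W769.Cons

/-- Euclidean space `ℝ^n`. -/
abbrev E (n : ℕ) : Type := EuclideanSpace ℝ (Fin n)

/-- `V` is locally strongly monotone on `U`. -/
def LocStrMono {n : ℕ} (U : Set (E n)) (V : E n → E n) : Prop :=
  ∀ p ∈ U, ∃ c > 0, ∃ r > 0, ∀ x ∈ ball p r, ∀ y ∈ ball p r,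
    c * ‖x - y‖ ^ 2 ≤ inner ℝ (V x - V y) (x - y)

/-- The local data needed by `core` are available on a small closed ball. -/
theorem exists_ball {n : ℕ} {U : Set (E n)} (hU : IsOpen U) {x₀ : E n} (hx₀ : x₀ ∈ U)
    {b V : E n → E n} (hb : LocallyLipschitzOn U b) (hV : LocallyLipschitzOn U V)
    (hm : LocStrMono U V) :
    ∃ ρ > 0, closedBall x₀ ρ ⊆ U ∧ ∃ Lb Lv : ℝ≥0, LipschitzOnWith Lb b (closedBall x₀ ρ) ∧
      LipschitzOnWith Lv V (closedBall x₀ ρ) ∧ ∃ c > 0, ∀ x ∈ closedBall x₀ ρ,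
        ∀ y ∈ closedBall x₀ ρ, c * ‖x - y‖ ^ 2 ≤ inner ℝ (V x - V y) (x - y) := by
  obtain ⟨Lb, tb, htb, hLb⟩ := hb hx₀
  obtain ⟨Lv, tv, htv, hLv⟩ := hV hx₀
  obtain ⟨c, hc, r, hr, hcr⟩ := hm x₀ hx₀
  rw [hU.nhdsWithin_eq hx₀] at htb htv
  obtain ⟨ρ, hρ, hρs⟩ := nhds_basis_closedBall.mem_iff.1
    (inter_mem (inter_mem (inter_mem htb htv) (hU.mem_nhds hx₀)) (ball_mem_nhds x₀ hr))
  refine ⟨ρ, hρ, fun x hx => (hρs hx).1.2, Lb, Lv, hLb.mono fun x hx => (hρs hx).1.1.1,
    hLv.mono fun x hx => (hρs hx).1.1.2, c, hc, fun x hx y hy =>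
      hcr x (hρs hx).2 y (hρs hy).2⟩

/-- **Slices.** All but at most `n` of the sets `{∇g(p) + b(p) + t V(p) : p ∈ U}` have positive
measure. -/
theorem slices {n : ℕ} {U : Set (E n)} (hU : IsOpen U) (hne : U.Nonempty) {g : E n → ℝ}
    (hg : ∀ p ∈ U, DifferentiableAt ℝ g p) {b V : E n → E n} (hb : LocallyLipschitzOn U b)
    (hV : LocallyLipschitzOn U V) (hm : LocStrMono U V) :
    {t : ℝ | volume ((fun p => gradient g p + b p + t • V p) '' U) = 0}.encard ≤ n := by
  obtain ⟨x₀, hx₀⟩ := hne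
  obtain ⟨ρ, hρ, hsub, Lb, Lv, hLb, hLv, c, hc, hmono⟩ := exists_ball hU hx₀ hb hV hm
  obtain ⟨Z, Q, β, ν, kβ, kν, τ, hZc, hZ, hQ, hβ, hβ1, hν, heq⟩ :=
    core volume hρ (fun x hx => hg x (hsub hx)) hLb hLv hc hmono
  have h1 := encard_bad_le volume hβ hβ1 hν hZ τ
  rw [finrank_euclideanSpace_fin] at h1
  refine (encard_le_encard ?_).trans h1
  intro t ht
  refine measure_mono_null ?_ ht
  rintro _ ⟨z, hz, rfl⟩
  exact ⟨Q z, hsub (hQ hz), heq z hz t⟩

theorem locallyLipschitzOn_id {n : ℕ} (U : Set (E n)) :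
    LocallyLipschitzOn U (fun p : E n => p) := fun _ _ =>
  ⟨1, univ, univ_mem, LipschitzWith.id.lipschitzOnWith⟩

theorem locStrMono_id {n : ℕ} (U : Set (E n)) : LocStrMono U (fun p : E n => p) := fun p _ =>
  ⟨1, one_pos, 1, one_pos, fun x _ y _ => by
    simp only [one_mul]
    exact (real_inner_self_eq_norm_sq _).ge⟩

/-- Positive measure implies full dimension and full Minkowski content at all scales. -/
theorem full_of_pos {n : ℕ} {K : Set (E n)} (h : 0 < volume K) :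
    0 < volume K ∧ dimH K = (n : ℝ≥0∞) ∧ ∃ c > 0, ∀ δ > 0, c ≤ volume (thickening δ K) := by
  refine ⟨h, le_antisymm ?_ ?_, volume K, h, fun δ hδ =>
    measure_mono (self_subset_thickening hδ K)⟩
  · refine (dimH_mono (subset_univ K)).trans ?_
    rw [Real.dimH_univ_eq_finrank]
    simp
  · have h3 : Measure.IsAddHaarMeasure (Measure.hausdorffMeasure (n : ℝ) : Measure (E n)) := by
      simpa using MeasureTheory.isAddHaarMeasure_hausdorffMeasure (E := E n)
    have h1 : (Measure.hausdorffMeasure (n : ℝ) : Measure (E n)) K ≠ 0 := by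
      intro h0
      exact h.ne' ((Measure.absolutelyContinuous_isAddHaarMeasure volume
        (Measure.hausdorffMeasure (n : ℝ) : Measure (E n))) h0)
    have h2 := le_dimH_of_hausdorffMeasure_ne_zero (s := K) (d := (n : ℝ≥0)) (by simpa using h1)
    simpa using h2

/-- The point of `ℝ^{d+1}` with first coordinate (height) `t` and remaining coordinates `y`. -/
noncomputable def pt {d : ℕ} (t : ℝ) (y : E d) : E (d + 1) :=
  WithLp.toLp 2 (Fin.cons t (WithLp.ofLp y))

theorem continuous_pt {d : ℕ} : Continuous (fun q : ℝ × E d => pt q.1 q.2) := by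
  unfold pt
  refine (PiLp.continuous_toLp 2 _).comp ?_
  refine continuous_pi fun i => ?_
  refine Fin.cases ?_ (fun j => ?_) i
  · simp only [Fin.cons_zero]
    exact continuous_fst
  · simp only [Fin.cons_succ]
    exact (continuous_apply j).comp ((PiLp.continuous_ofLp 2 _).comp continuous_snd)

/-- A compact set in `ℝ^{d+1}` with many fat slices has positive measure. -/
theorem volume_pos_of_slices {d : ℕ} {Z : Set (E (d + 1))} (hZ : IsCompact Z) {t1 t2 : ℝ}
    (h12 : t1 < t2) {B : Set ℝ} (hB : B.Countable)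
    (hs : ∀ t ∈ Icc t1 t2, t ∉ B → volume {y : E d | pt t y ∈ Z} ≠ 0) : 0 < volume Z := by
  rw [pos_iff_ne_zero]
  intro h0
  have hmp := volume_preserving_piFinSuccAbove (fun _ : Fin (d + 1) => ℝ) 0
  set e := MeasurableEquiv.piFinSuccAbove (fun _ : Fin (d + 1) => ℝ) 0 with he
  set Z' : Set (Fin (d + 1) → ℝ) := {z | (WithLp.toLp 2 z : E (d + 1)) ∈ Z} with hZ'
  have hZ'c : IsClosed Z' := hZ.isClosed.preimage (PiLp.continuous_toLp 2 _)
  have hZ'0 : volume Z' = 0 := by
    have := (PiLp.volume_preserving_toLp (Fin (d + 1))).measure_preimage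
      hZ.isClosed.measurableSet.nullMeasurableSet
    rw [h0] at this
    exact this
  have h1 : (volume : Measure (ℝ × (Fin d → ℝ))) (e.symm ⁻¹' Z') = 0 := by
    rw [← hmp.measure_preimage_equiv]
    rw [← preimage_comp]
    simpa using hZ'0
  have hZm : MeasurableSet (e.symm ⁻¹' Z') := e.symm.measurable hZ'c.measurableSet
  have h2 := (Measure.measure_prod_null hZm).1 h1
  have h3 : ∀ᵐ t : ℝ, t ∉ B := by
    rw [← measure_eq_zero_iff_ae_notMem]
    exact hB.measure_zero _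
  have h4 : ∀ᵐ t : ℝ, t ∉ Icc t1 t2 := by
    filter_upwards [h2, h3] with t ht htB htI
    apply hs t htI htB
    have h5 : (fun y : Fin d → ℝ => (WithLp.toLp 2 y : E d)) ⁻¹' {y : E d | pt t y ∈ Z} =
        Prod.mk t ⁻¹' (e.symm ⁻¹' Z') := by
      ext y
      have : e.symm (t, y) = (Fin.cons t y : Fin (d + 1) → ℝ) := by
        rw [he]
        exact Fin.insertNth_zero' t y
      rw [Set.mem_preimage, Set.mem_preimage, Set.mem_preimage, this]
      rfl
    have hcl : IsClosed {y : E d | pt t y ∈ Z} :=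
      hZ.isClosed.preimage (continuous_pt.comp (by fun_prop : Continuous fun y : E d => (t, y)))
    rw [← (PiLp.volume_preserving_toLp (Fin d)).measure_preimage
      hcl.measurableSet.nullMeasurableSet]
    exact (measure_mono_null h5.le ht)
  rw [← measure_eq_zero_iff_ae_notMem, Real.volume_Icc, ENNReal.ofReal_eq_zero] at h4
  linarith

/-- **Unions, one common interval of heights.** -/
theorem union_common {d : ℕ} {U : Set (E d)} (hU : IsOpen U) (hne : U.Nonempty) {g : E d → ℝ}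
    (hg : ∀ p ∈ U, DifferentiableAt ℝ g p) {b V : E d → E d} (hb : LocallyLipschitzOn U b)
    (hV : LocallyLipschitzOn U V) (hm : LocStrMono U V) {K : Set (E (d + 1))} {t₁ t₂ : ℝ}
    (h12 : t₁ < t₂)
    (hK : ∀ p ∈ U, ∀ t ∈ Icc t₁ t₂, pt t (gradient g p + b p + t • V p) ∈ K) : 0 < volume K := by
  obtain ⟨x₀, hx₀⟩ := hne
  obtain ⟨ρ, hρ, hsub, Lb, Lv, hLb, hLv, c, hc, hmono⟩ := exists_ball hU hx₀ hb hV hm
  obtain ⟨Z, Q, β, ν, kβ, kν, τ, hZc, hZ, hQ, hβ, hβ1, hν, heq⟩ :=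
    core volume hρ (fun x hx => hg x (hsub hx)) hLb hLv hc hmono
  have h1 := encard_bad_le volume hβ hβ1 hν hZ τ
  rw [finrank_euclideanSpace_fin] at h1
  have hfin := Set.finite_of_encard_le_coe h1
  set Ψ : ℝ × E d → E (d + 1) := fun q => pt q.1 (q.2 + β q.2 + (q.1 - τ) • ν q.2) with hΨ
  have hΨc : Continuous Ψ := by
    have hβc := hβ.continuous
    have hνc := hν.continuous
    exact continuous_pt.comp (by fun_prop :
      Continuous fun q : ℝ × E d => (q.1, q.2 + β q.2 + (q.1 - τ) • ν q.2))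
  have hcomp : IsCompact (Ψ '' (Icc t₁ t₂ ×ˢ Z)) := (isCompact_Icc.prod hZc).image hΨc
  have hpos := volume_pos_of_slices hcomp h12 hfin.countable (by
    intro t ht htB h0
    apply htB
    refine measure_mono_null ?_ h0
    rintro _ ⟨z, hz, rfl⟩
    exact ⟨(t, z), ⟨ht, hz⟩, rfl⟩)
  refine hpos.trans_le (measure_mono ?_)
  rintro _ ⟨⟨t, z⟩, ⟨ht, hz⟩, rfl⟩
  have := hK (Q z) (hsub (hQ hz)) t ht
  rw [heq z hz t] at this
  exact this

/-- **Baire.** If a closed set contains a piece of each of a continuous family of curves, it contains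
for an open set of parameters the same piece. -/
theorem baire {n : ℕ} {Y : Type*} [TopologicalSpace Y] {U : Set (E n)} (hU : IsOpen U)
    (hne : U.Nonempty) {F : E n → ℝ → Y} (hF : ∀ s, ContinuousOn (fun p => F p s) U) {K : Set Y}
    (hK : IsClosed K) (h : ∀ p ∈ U, ∃ s₁ s₂ : ℝ, s₁ < s₂ ∧ ∀ s ∈ Icc s₁ s₂, F p s ∈ K) :
    ∃ (W : Set (E n)) (s₁ s₂ : ℝ), IsOpen W ∧ W.Nonempty ∧ W ⊆ U ∧ s₁ < s₂ ∧
      ∀ p ∈ W, ∀ s ∈ Icc s₁ s₂, F p s ∈ K := by
  obtain ⟨x₀, hx₀⟩ := hne
  obtain ⟨ρ, hρ, hsub⟩ := nhds_basis_closedBall.mem_iff.1 (hU.mem_nhds hx₀)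
  set f : Option {q : ℚ × ℚ // q.1 < q.2} → Set (E n) := fun o => match o with
    | none => (ball x₀ ρ)ᶜ
    | some q => {p ∈ closedBall x₀ ρ | ∀ s ∈ Icc (q.1.1 : ℝ) (q.1.2 : ℝ), F p s ∈ K} with hf
  have hcl : ∀ o, IsClosed (f o) := by
    intro o
    match o with
    | none => exact isOpen_ball.isClosed_compl
    | some q =>
      have : f (some q) = ⋂ s ∈ Icc (q.1.1 : ℝ) (q.1.2 : ℝ), {p ∈ closedBall x₀ ρ | F p s ∈ K} := by
        ext p
        simp only [hf, mem_iInter]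
        constructor
        · rintro ⟨h1, h2⟩ s hs
          exact ⟨h1, h2 s hs⟩
        · intro h1
          have hq : (q.1.1 : ℝ) ≤ q.1.2 := by exact_mod_cast q.2.le
          exact ⟨(h1 _ (left_mem_Icc.2 hq)).1, fun s hs => (h1 s hs).2⟩
      rw [this]
      refine isClosed_biInter fun s _ => ?_
      exact ((hF s).mono hsub).preimage_isClosed_of_isClosed isClosed_closedBall hK
  have hcov : ⋃ o, f o = univ := by
    refine eq_univ_of_forall fun p => ?_
    by_cases hp : p ∈ ball x₀ ρ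
    · obtain ⟨s₁, s₂, h12, hs⟩ := h p (hsub (ball_subset_closedBall hp))
      obtain ⟨q₁, hq1, hq1'⟩ := exists_rat_btwn h12
      obtain ⟨q₂, hq2, hq2'⟩ := exists_rat_btwn hq1'
      have hq : q₁ < q₂ := by exact_mod_cast hq2
      refine mem_iUnion.2 ⟨some ⟨(q₁, q₂), hq⟩, ball_subset_closedBall hp, ?_⟩
      intro s hs'
      exact hs s ⟨hq1.le.trans hs'.1, hs'.2.trans hq2'.le⟩
    · exact mem_iUnion.2 ⟨none, hp⟩
  have hdense := dense_iUnion_interior_of_closed hcl hcov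
  obtain ⟨p, hp, hpo⟩ := hdense.inter_open_nonempty _ isOpen_ball ⟨x₀, mem_ball_self hρ⟩
  obtain ⟨o, ho⟩ := mem_iUnion.1 hpo
  match o with
  | none => exact absurd hp (interior_subset ho)
  | some q =>
    refine ⟨interior (f (some q)), q.1.1, q.1.2, isOpen_interior, ⟨p, ho⟩, ?_, ?_, ?_⟩
    · intro x hx
      exact hsub (interior_subset hx).1
    · exact_mod_cast q.2
    · intro x hx
      exact (interior_subset hx).2

end Pool.Agent.W769.Cons
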